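import Pool.Agent.U866.OM.Stm

set_option autoImplicit false

namespace Pool.Agent.U624.OM

open Pool.Agent.H498R3.GB Pool.Agent.U866.OM
open scoped BigOperators ContDiff Topology Matrix

variable {m : ℕ}

theorem gpt_zero (v : E m → ℝ) (x : E m) : gpt v x 0 = v x := rfl

theorem gpt_succ (v : E m → ℝ) (x : E m) (j : Fin m) : gpt v x j.succ = x j := rfl

theorem contDiff_gpt {v : E m → ℝ} (hv : ContDiff ℝ ∞ v) : ContDiff ℝ ∞ (gpt v) := by
  rw [contDiff_euclidean]
  intro a
  refine Fin.cases ?_ (fun j => ?_) a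
  · exact hv
  · exact contDiff_coord j

theorem contDiff_comp {v : E m → ℝ} (hv : ContDiff ℝ ∞ v) (a : Fin (m + 1)) :
    ContDiff ℝ ∞ (fun z => gpt v z a) :=
  (contDiff_euclidean.1 (contDiff_gpt hv)) a

theorem contDiff_pd' {f : E m → ℝ} (hf : ContDiff ℝ ∞ f) (i : Fin m) :
    ContDiff ℝ ∞ (fun x => pd i f x) := by
  have h1 : ContDiff ℝ ∞ (fderiv ℝ f) := hf.fderiv_right (by simp)
  exact h1.clm_apply contDiff_const

theorem contDiff_map {v : E m → ℝ} (hv : ContDiff ℝ ∞ v) :
    ContDiff ℝ ∞ (fun q : ℝ × E m => q.1 • gpt v q.2) :=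
  contDiff_fst.smul ((contDiff_gpt hv).comp contDiff_snd)

/-- the Jacobi matrix of the graph -/
noncomputable def jac (v : E m → ℝ) (y : E m) : Matrix (Fin (m + 1)) (Fin m) ℝ :=
  Matrix.of fun a i => pd i (fun z => gpt v z a) y

theorem jac_inj (v : E m → ℝ) (y : E m) : Function.Injective (jac v y).mulVec := by
  intro w w' h
  funext j
  have h1 := congrFun h j.succ
  have key : ∀ u : Fin m → ℝ, (jac v y).mulVec u j.succ = u j := by
    intro u
    simp only [Matrix.mulVec, dotProduct, jac, Matrix.of_apply]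
    have : ∀ i, pd i (fun z => gpt v z j.succ) y = (1 : Matrix (Fin m) (Fin m) ℝ) i j :=
      fun i => pd_coord i j y
    simp only [this, Matrix.one_apply]
    simp
  rw [key, key] at h1
  exact h1

theorem fam_eq (G : MetricField (m + 1)) (v : E m → ℝ) (ε : ℝ) (y : E m) :
    fam G v ε y = (jac v y)ᴴ * G (ε • gpt v y) * jac v y := by
  ext i j
  simp only [fam, Matrix.of_apply, Matrix.mul_apply, Matrix.conjTranspose_apply, jac, star_trivial,
    Finset.sum_mul]
  rw [Finset.sum_comm]
  refine Finset.sum_congr rfl fun b _ => Finset.sum_congr rfl fun a _ => ?_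
  ring

theorem t_FAM : S_FAM := by
  intro m G U v hU hG hv
  refine ⟨hU.preimage (contDiff_map hv).continuous, fun i j => ?_, fun q hq => ?_⟩
  · unfold fam
    simp only [Matrix.of_apply]
    refine ContDiffOn.sum fun a _ => ContDiffOn.sum fun b _ => ?_
    refine ((((hG.smooth a b).comp (contDiff_map hv).contDiffOn (fun q hq => hq)).mul ?_).mul ?_)
    · exact ((contDiff_pd' (contDiff_comp hv a) i).comp contDiff_snd).contDiffOn
    · exact ((contDiff_pd' (contDiff_comp hv b) j).comp contDiff_snd).contDiffOn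
  · rw [fam_eq]
    exact (hG.posDef _ hq).conjTranspose_mul_mul_same (jac_inj v q.2)

end Pool.Agent.U624.OM
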